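import Mathlib
import Pool.Agent.H373R2.NB.Weyl

/-!
# Polynomial phases close to integers on a dense set
-/

set_option autoImplicit false

namespace Pool.Agent.R361.MA

open Finset Polynomial
open Pool.Agent.H373R2.NB (Ph vinogradov IW_all Ph_poly)

/-- a popular denominator -/
lemma pigeon (H : Finset ℕ) (qq : ℕ → ℕ) (Q : ℝ) (hQ : 1 ≤ Q)
    (h : ∀ y ∈ H, 1 ≤ qq y ∧ (qq y : ℝ) ≤ Q) :
    ∃ q : ℕ, 1 ≤ q ∧ (q : ℝ) ≤ Q ∧ (#H : ℝ) ≤ Q * #(H.filter (fun y => qq y = q)) := by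
  have hQ0 : 0 < Q := by linarith
  obtain ⟨q, hq, hqc⟩ : ∃ q ∈ Icc 1 ⌊Q⌋₊, (#H : ℝ) ≤ Q * #(H.filter (fun y => qq y = q)) := by
    by_contra hcon
    push Not at hcon
    have h1 : #H = ∑ q ∈ Icc 1 ⌊Q⌋₊, #(H.filter (fun y => qq y = q)) :=
      card_eq_sum_card_fiberwise (fun y hy => by
        rw [mem_coe] at hy ⊢
        obtain ⟨a1, a2⟩ := h y hy
        exact mem_Icc.2 ⟨a1, Nat.le_floor a2⟩)
    have hfl : (⌊Q⌋₊ : ℝ) ≤ Q := Nat.floor_le hQ0.le
    have hne : (Icc 1 ⌊Q⌋₊).Nonempty := ⟨1, mem_Icc.2 ⟨le_rfl, Nat.le_floor (by rw [Nat.cast_one]; exact hQ)⟩⟩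
    have h2 : Q * #H < Q * #H := by
      calc Q * #H = ∑ q ∈ Icc 1 ⌊Q⌋₊, Q * #(H.filter (fun y => qq y = q)) := by
            rw [← mul_sum]; congr 1; rw [h1]; push_cast; rfl
        _ < ∑ q ∈ Icc 1 ⌊Q⌋₊, (#H : ℝ) := sum_lt_sum_of_nonempty hne hcon
        _ = (⌊Q⌋₊ : ℝ) * #H := by rw [sum_const, Nat.card_Icc, nsmul_eq_mul, Nat.add_sub_cancel]
        _ ≤ _ := mul_le_mul_of_nonneg_right hfl (Nat.cast_nonneg _)
    exact lt_irrefl _ h2
  rw [mem_Icc] at hq
  exact ⟨q, hq.1, (Nat.cast_le.2 hq.2).trans (Nat.floor_le hQ0.le), hqc⟩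

/-- counting differences -/
lemma count_diff (S : Finset ℕ) (Y : ℕ) (hS : S ⊆ range Y) :
    #S * #S ≤ 2 * ∑ h ∈ range Y, #(S.filter (fun n => n + h ∈ S)) := by
  classical
  set P := (S ×ˢ S).filter (fun p => p.1 ≤ p.2) with hP
  set P' := (S ×ˢ S).filter (fun p => p.2 ≤ p.1) with hP'
  have h1 : #S * #S ≤ #P + #P' := by
    rw [← card_product]
    have : S ×ˢ S ⊆ P ∪ P' := by
      intro p hp
      rw [mem_union, hP, hP', mem_filter, mem_filter]
      rcases le_total p.1 p.2 with h | h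
      · exact Or.inl ⟨hp, h⟩
      · exact Or.inr ⟨hp, h⟩
    exact (card_le_card this).trans (card_union_le _ _)
  have h2 : #P' = #P := by
    apply card_bij (fun p _ => (p.2, p.1))
    · intro p hp
      rw [hP', mem_filter, mem_product] at hp
      rw [hP, mem_filter, mem_product]
      exact ⟨⟨hp.1.2, hp.1.1⟩, hp.2⟩
    · intro p _ q _ h
      rw [Prod.mk.injEq] at h
      exact Prod.ext h.2 h.1
    · intro p hp
      rw [hP, mem_filter, mem_product] at hp
      exact ⟨(p.2, p.1), by rw [hP', mem_filter, mem_product]; exact ⟨⟨hp.1.2, hp.1.1⟩, hp.2⟩, rfl⟩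
  have h3 : #P = ∑ h ∈ range Y, #(S.filter (fun n => n + h ∈ S)) := by
    rw [card_eq_sum_card_fiberwise (f := fun p : ℕ × ℕ => p.2 - p.1) (t := range Y)]
    · apply sum_congr rfl
      intro h _
      apply card_bij (fun p _ => p.1)
      · intro p hp
        rw [mem_filter, hP, mem_filter, mem_product] at hp
        rw [mem_filter]
        refine ⟨hp.1.1.1, ?_⟩
        have : p.1 + h = p.2 := by
          have := hp.2
          have := hp.1.2
          omega
        rw [this]; exact hp.1.1.2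
      · intro p hp q hq hpq
        rw [mem_filter, hP, mem_filter, mem_product] at hp hq
        have a1 := hp.2
        have a2 := hp.1.2
        have a3 := hq.2
        have a4 := hq.1.2
        have hpq1 : p.1 = q.1 := hpq
        exact Prod.ext hpq1 (by omega)
      · intro n hn
        rw [mem_filter] at hn
        refine ⟨(n, n + h), ?_, rfl⟩
        rw [mem_filter, hP, mem_filter, mem_product]
        exact ⟨⟨⟨hn.1, hn.2⟩, Nat.le_add_right _ _⟩, by simp⟩
    · intro p hp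
      rw [mem_coe, hP, mem_filter, mem_product] at hp
      have := mem_range.1 (hS hp.1.2)
      rw [mem_coe, mem_range]
      show p.2 - p.1 < Y
      omega
  rw [h2, h3] at h1
  omega

/-- concentration of a polynomial phase near the integers -/
def Conc (d : ℕ) : Prop := ∃ c m : ℕ, 1 ≤ c ∧ ∀ (Y : ℕ) (u δ α : ℝ) (φ : ℕ → ℝ) (S : Finset ℕ), 1 ≤ u → 0 ≤ δ →
  c * u ^ m * δ ≤ 1 → c * u ^ m ≤ Y → Ph d α φ → S ⊆ range Y → (Y : ℝ) ≤ u * #S →
  (∀ n ∈ S, ∃ a : ℤ, |φ n - a| ≤ δ) →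
  ∃ q : ℕ, 1 ≤ q ∧ (q : ℝ) ≤ c * u ^ m ∧ ∃ a : ℤ, |q * α - a| ≤ c * u ^ m * δ / (Y : ℝ) ^ d

lemma conc_zero : Conc 0 := by
  refine ⟨1, 0, le_rfl, fun Y u δ α φ S hu hδ _ hY hφ hS hcard hn => ?_⟩
  rw [pow_zero, mul_one, Nat.cast_one] at hY
  have hne : S.Nonempty := by
    rw [nonempty_iff_ne_empty]
    intro h
    rw [h, card_empty] at hcard
    push_cast at hcard
    linarith
  obtain ⟨n, hnS⟩ := hne
  obtain ⟨a, ha⟩ := hn n hnS
  refine ⟨1, le_rfl, by simp, a, ?_⟩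
  rw [hφ n] at ha
  simpa using ha

lemma conc_step (d : ℕ) (hd : Conc d) : Conc (d + 1) := by
  obtain ⟨c, m, hc, hI⟩ := hd
  refine ⟨512 * 4 ^ (3 * m) * c ^ 3, 6 * m + 4, by
    have : 0 < 512 * 4 ^ (3 * m) * c ^ 3 := by positivity
    exact this, ?_⟩
  intro Y u δ α φ S hu hδ hsm hY hφ hS hcard hn
  have hc1 : (1 : ℝ) ≤ c := by exact_mod_cast hc
  have hu0 : 0 < u := by linarith
  have hu4 : 1 ≤ 4 * u ^ 2 := by nlinarith
  set Q : ℝ := c * (4 * u ^ 2) ^ m with hQ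
  have hQ1 : 1 ≤ Q := one_le_mul_of_one_le_of_one_le hc1 (one_le_pow₀ hu4)
  set D : ℝ := 4 * u ^ 2 * Q with hD
  have hD1 : 1 ≤ D := one_le_mul_of_one_le_of_one_le hu4 hQ1
  have hQD : Q ≤ D := by rw [hD]; nlinarith
  have hT : ((512 * 4 ^ (3 * m) * c ^ 3 : ℕ) : ℝ) * u ^ (6 * m + 4) = 32 * Q * D ^ 2 := by
    rw [hD, hQ, mul_pow (4 : ℝ), ← pow_mul]
    rw [show 3 * m = m + m + m by ring, show 6 * m + 4 = 2 * m + 2 * m + 2 * m + 4 by ring]
    rw [pow_add u, pow_add u, pow_add u]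
    push_cast
    rw [pow_add, pow_add]
    ring
  rw [hT] at hsm hY ⊢
  have hDD : D ≤ D ^ 2 := le_self_pow₀ hD1 (by norm_num)
  have hD2 : 1 ≤ D ^ 2 := one_le_pow₀ hD1
  have hT1 : 1 ≤ 32 * Q * D ^ 2 := by
    have := one_le_mul_of_one_le_of_one_le hQ1 hD2
    nlinarith
  have hY1 : (1 : ℝ) ≤ Y := hT1.trans hY
  have hY0 : (0 : ℝ) < Y := by linarith
  have hYn : 1 ≤ Y := by exact_mod_cast hY1
  -- popular differences
  set Sh : ℕ → Finset ℕ := fun h => S.filter (fun n => n + h ∈ S) with hSh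
  set H := (range Y).filter (fun h => (Y : ℝ) ≤ 4 * u ^ 2 * #(Sh h)) with hH
  have hHcard : (Y : ℝ) ≤ 4 * u ^ 2 * #H := by
    have h1 : ((#S : ℝ)) * #S ≤ 2 * ∑ h ∈ range Y, (#(Sh h) : ℝ) := by exact_mod_cast count_diff S Y hS
    have h2 : ∑ h ∈ range Y, (#(Sh h) : ℝ) ≤ #H * Y + Y * (Y / (4 * u ^ 2)) := by
      calc ∑ h ∈ range Y, (#(Sh h) : ℝ) ≤ ∑ h ∈ range Y, ((if (Y : ℝ) ≤ 4 * u ^ 2 * #(Sh h) then (Y : ℝ) else 0) + Y / (4 * u ^ 2)) := by
            apply sum_le_sum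
            intro h _
            have h3 : (#(Sh h) : ℝ) ≤ Y := by
              have := card_le_card ((filter_subset (fun n => n + h ∈ S) S).trans hS)
              rw [card_range] at this
              exact_mod_cast this
            have h4 : (0 : ℝ) ≤ Y / (4 * u ^ 2) := by positivity
            split_ifs with h5
            · linarith
            · push Not at h5
              rw [zero_add, le_div_iff₀ (by positivity)]
              linarith
        _ = _ := by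
            rw [sum_add_distrib, sum_const, card_range, nsmul_eq_mul, ← sum_filter, sum_const, nsmul_eq_mul]
    have h3 : (Y : ℝ) * Y ≤ u ^ 2 * ((#S : ℝ) * #S) := by
      have := mul_le_mul hcard hcard hY0.le (by positivity)
      linarith
    have h4 : (Y : ℝ) * Y ≤ u ^ 2 * (2 * (#H * Y + Y * (Y / (4 * u ^ 2)))) :=
      h3.trans (mul_le_mul_of_nonneg_left (h1.trans (by linarith)) (by positivity))
    have h5 : u ^ 2 * (2 * (#H * Y + Y * (Y / (4 * u ^ 2)))) = 2 * u ^ 2 * #H * Y + Y * Y / 2 := by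
      field_simp
      ring
    rw [h5] at h4
    have h6 : (Y : ℝ) * Y ≤ (4 * u ^ 2 * #H) * Y := by linarith
    exact le_of_mul_le_mul_right h6 hY0
  -- induction hypothesis
  have hch : ∀ h : ℕ, ∃ q : ℕ, h ∈ H → 1 ≤ q ∧ (q : ℝ) ≤ Q ∧ ∃ a : ℤ, |q * (h * α) - a| ≤ Q * (2 * δ) / (Y : ℝ) ^ d := by
    intro h
    by_cases hh : h ∈ H
    · rw [hH, mem_filter, mem_range] at hh
      obtain ⟨q, hq1, hq2, a, ha⟩ := hI Y (4 * u ^ 2) (2 * δ) (h * α) _ (Sh h) hu4 (by positivity)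
        (by
          rw [← hQ]
          refine le_trans ?_ hsm
          have e : Q * (2 * δ) = (2 * Q) * δ := by ring
          rw [e]
          apply mul_le_mul_of_nonneg_right _ hδ
          nlinarith)
        (by
          rw [← hQ]
          refine le_trans ?_ hY
          nlinarith)
        (hφ h) ((filter_subset _ _).trans hS) hh.2
        (by
          intro n hnn
          rw [hSh, mem_filter] at hnn
          obtain ⟨a, ha⟩ := hn n hnn.1
          obtain ⟨b, hb⟩ := hn (n + h) hnn.2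
          refine ⟨b - a, ?_⟩
          have e : φ (n + h) - φ n - ((b - a : ℤ) : ℝ) = (φ (n + h) - b) - (φ n - a) := by push_cast; ring
          show |φ (n + h) - φ n - ((b - a : ℤ) : ℝ)| ≤ 2 * δ
          rw [e]
          exact (abs_sub _ _).trans (by linarith))
      exact ⟨q, fun _ => ⟨hq1, hq2, a, ha⟩⟩
    · exact ⟨0, fun h' => absurd h' hh⟩
  choose qq hqq using hch
  obtain ⟨q, hq1, hq2, hqc⟩ := pigeon H qq Q hQ1 (fun h hh => ⟨(hqq h hh).1, (hqq h hh).2.1⟩)
  set ε : ℝ := Q * (2 * δ) / (Y : ℝ) ^ d with hε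
  have hε0 : 0 ≤ ε := by positivity
  have hYd : 1 ≤ (Y : ℝ) ^ d := one_le_pow₀ hY1
  have hε1 : ε ≤ Q * (2 * δ) := div_le_self (by positivity) hYd
  have hεD : 16 * ε * D ≤ 1 := by
    calc 16 * ε * D ≤ 16 * (Q * (2 * δ)) * D := by gcongr
      _ = 32 * Q * D * δ := by ring
      _ ≤ 32 * Q * D ^ 2 * δ := by gcongr
      _ ≤ 1 := hsm
  have hND : 16 * D ^ 2 ≤ Y := by
    refine le_trans ?_ hY
    nlinarith
  obtain ⟨q', hq'1, hq'2, a, ha⟩ := vinogradov (q * α) Y D ε hD1 hε0 hεD hND (H.filter (fun h => qq h = q))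
    (by
      intro h hh
      rw [mem_filter] at hh
      have h1 := (mem_filter.1 hh.1).1
      rw [mem_range] at h1
      obtain ⟨_, _, b, hb⟩ := hqq h hh.1
      rw [hh.2] at hb
      refine ⟨h1, b, ?_⟩
      have e : (h : ℝ) * (q * α) = q * (h * α) := by ring
      rw [e]; exact hb)
    (by
      calc (Y : ℝ) ≤ 4 * u ^ 2 * #H := hHcard
        _ ≤ 4 * u ^ 2 * (Q * #(H.filter (fun h => qq h = q))) := mul_le_mul_of_nonneg_left hqc (by positivity)
        _ = _ := by rw [hD]; ring)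
  refine ⟨q' * q, Nat.mul_pos hq'1 hq1, ?_, a, ?_⟩
  · calc ((q' * q : ℕ) : ℝ) = q' * q := by push_cast; rfl
      _ ≤ (2 * D) * Q := mul_le_mul hq'2 hq2 (Nat.cast_nonneg _) (by positivity)
      _ ≤ _ := by
        have := mul_le_mul_of_nonneg_left hDD (show 0 ≤ Q by linarith)
        nlinarith [mul_pos (show 0 < Q by linarith) (show 0 < D ^ 2 by positivity)]
  · have e : ((q' * q : ℕ) : ℝ) * α = q' * (q * α) := by push_cast; ring
    rw [e]
    refine ha.trans (le_of_eq ?_)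
    rw [hε, pow_succ (Y : ℝ)]; field_simp; ring

theorem conc_all (d : ℕ) : Conc d := by
  induction d with
  | zero => exact conc_zero
  | succ d ih => exact conc_step d ih

end Pool.Agent.R361.MA
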