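import Mathlib
import Pool.Agent.R361.MA.Conc
import Pool.Agent.H807R2.Dav1

/-!
# Type I and type II sums for polynomial phases
-/

set_option autoImplicit false

namespace Pool.Agent.R361.MA

open Finset Polynomial
open Pool.Agent.H373R2.NB (Ph IW_all Ph_poly)
open Pool.Agent.H807R2.Dav (ee norm_ee)

lemma mk_ee' (x : ℝ) : Pool.Agent.Helper602.MK.ee x = ee x := by
  unfold ee Pool.Agent.Helper602.MK.ee
  congr 1
  ring

lemma Ph_add (d : ℕ) (s : ℕ) : ∀ (α : ℝ) (φ : ℕ → ℝ), Ph d α φ → Ph d α (fun n => φ (n + s)) := by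
  induction d with
  | zero => intro α φ h n; exact h (n + s)
  | succ d ih =>
    intro α φ h k
    have h1 := ih _ _ (h k)
    have h2 : (fun n => φ (n + s + k) - φ (n + s)) = fun n => φ (n + k + s) - φ (n + s) := by
      funext n; rw [show n + s + k = n + k + s by ring]
    rw [h2] at h1
    exact h1

lemma sum_Ioc_shift (A B : ℕ) (F : ℕ → ℂ) : ∑ n ∈ Ioc A B, F n = ∑ n ∈ range (B - A), F (n + (A + 1)) := by
  have h1 : Ioc A B = Ico (A + 1) (B + 1) := by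
    ext n; rw [mem_Ioc, mem_Ico]; omega
  rw [h1, sum_Ico_eq_sum_range]
  have h2 : B + 1 - (A + 1) = B - A := by omega
  rw [h2]
  apply sum_congr rfl
  intro n _
  rw [add_comm]

/-- the inverse theorem on an interval -/
lemma weyl_poly (d : ℕ) (hd : 1 ≤ d) : ∃ c m : ℕ, 1 ≤ c ∧ ∀ (f : ℤ[X]), f.natDegree ≤ d →
    ∀ (A B : ℕ) (u θ : ℝ), A < B → 1 ≤ u →
    ((B - A : ℕ) : ℝ) ≤ u * ‖∑ n ∈ Ioc A B, ee (θ * ((f.eval (n : ℤ) : ℤ) : ℝ))‖ →
    ∃ q : ℕ, 1 ≤ q ∧ (q : ℝ) ≤ c * u ^ m ∧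
      ∃ a : ℤ, |q * (θ * ((d.factorial : ℝ) * (f.coeff d : ℤ))) - a| ≤ c * u ^ m / ((B - A : ℕ) : ℝ) ^ d := by
  obtain ⟨c, m, hc, hI⟩ := IW_all d hd
  refine ⟨c, m, hc, fun f hf A B u θ hAB hu hS => ?_⟩
  have hph := Ph_add d (A + 1) _ _ (Ph_poly d f hf θ)
  refine hI (B - A) u _ _ (by omega) hu hph ?_
  refine hS.trans (le_of_eq ?_)
  rw [sum_Ioc_shift]
  congr 2
  apply sum_congr rfl
  intro n _
  rw [mk_ee']

lemma norm_sum_ee_le (s : Finset ℕ) (g : ℕ → ℝ) : ‖∑ n ∈ s, ee (g n)‖ ≤ #s := by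
  refine (norm_sum_le _ _).trans ?_
  simp [norm_ee]

/-- absorbing an integer factor -/
lemma absorb (q : ℕ) (θ ε : ℝ) (z a : ℤ) (h : |q * (θ * (z : ℝ)) - a| ≤ ε) :
    ∃ a' : ℤ, |((q * z.natAbs : ℕ) : ℝ) * θ - a'| ≤ ε := by
  rcases le_total 0 z with hz | hz
  · refine ⟨a, ?_⟩
    have e : ((q * z.natAbs : ℕ) : ℝ) = q * z := by
      rw [Nat.cast_mul, Nat.cast_natAbs, abs_of_nonneg hz]
    rw [e]
    have e2 : (q : ℝ) * z * θ - a = q * (θ * z) - a := by ring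
    rw [e2]; exact h
  · refine ⟨-a, ?_⟩
    have e : ((q * z.natAbs : ℕ) : ℝ) = -(q * z) := by
      rw [Nat.cast_mul, Nat.cast_natAbs, abs_of_nonpos hz]
      push_cast
      ring
    rw [e]
    have e2 : -((q : ℝ) * z) * θ - ((-a : ℤ) : ℝ) = -(q * (θ * z) - a) := by push_cast; ring
    rw [e2, abs_neg]; exact h

lemma comp_deg (h : ℤ[X]) (k : ℤ) : (h.comp (C k * X)).natDegree ≤ h.natDegree := by
  rw [natDegree_le_iff_coeff_eq_zero]
  intro j hj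
  rw [comp_C_mul_X_coeff, coeff_eq_zero_of_natDegree_lt hj, zero_mul]

/-- type I sums -/
theorem typeI (h : ℤ[X]) (hd : 1 ≤ h.natDegree) : ∃ c m : ℕ, 1 ≤ c ∧ ∀ (θ v : ℝ) (N N' k b : ℕ), 1 ≤ v → 1 ≤ N →
    1 ≤ k → (k : ℝ) ≤ v → N' ≤ 2 * N → b ≤ N' / k →
    (N : ℝ) < v * ‖∑ l ∈ Ioc (N / k) b, ee (θ * ((h.eval ((k * l : ℕ) : ℤ) : ℤ) : ℝ))‖ →
    ∃ q : ℕ, 1 ≤ q ∧ (q : ℝ) ≤ c * v ^ m ∧ ∃ a : ℤ, |q * θ - a| ≤ c * v ^ m / (N : ℝ) ^ h.natDegree := by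
  set d := h.natDegree with hdd
  obtain ⟨c₁, m₁, hc₁, hW⟩ := weyl_poly d hd
  set lc := h.coeff d with hlc
  have hlc0 : lc ≠ 0 := by
    rw [hlc, hdd]
    have : h ≠ 0 := by
      intro h0; rw [h0, natDegree_zero] at hdd; omega
    exact leadingCoeff_ne_zero.2 this
  have hlcn : 1 ≤ lc.natAbs := Int.natAbs_pos.2 hlc0
  have hfac : 1 ≤ d.factorial := Nat.factorial_pos d
  refine ⟨c₁ * 2 ^ m₁ * (d.factorial * lc.natAbs), m₁ + d, ?_, ?_⟩
  · have : 0 < c₁ * 2 ^ m₁ * (d.factorial * lc.natAbs) := by positivity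
    exact this
  intro θ v N N' k b hv hN hk hkv hN' hb hS
  have hv0 : 0 < v := by linarith
  have hN0 : (0 : ℝ) < N := by exact_mod_cast hN
  set n := b - N / k with hn
  set S := ‖∑ l ∈ Ioc (N / k) b, ee (θ * ((h.eval ((k * l : ℕ) : ℤ) : ℤ) : ℝ))‖ with hSd
  have hSn : S ≤ n := by
    have := norm_sum_ee_le (Ioc (N / k) b) (fun l => θ * ((h.eval ((k * l : ℕ) : ℤ) : ℤ) : ℝ))
    rw [Nat.card_Ioc] at this
    exact this
  have hnN : (N : ℝ) ≤ v * n := hS.le.trans (mul_le_mul_of_nonneg_left hSn hv0.le)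
  have hn0 : 0 < n := by
    rcases Nat.eq_zero_or_pos n with h0 | h0
    · rw [h0, Nat.cast_zero, mul_zero] at hnN; linarith
    · exact h0
  have hn0r : (0 : ℝ) < n := by exact_mod_cast hn0
  have hn2 : (n : ℝ) ≤ 2 * N := by
    have h1 : b ≤ N' := hb.trans (Nat.div_le_self _ _)
    have h2 : n ≤ b := Nat.sub_le _ _
    have : n ≤ 2 * N := h2.trans (h1.trans hN')
    exact_mod_cast this
  set f : ℤ[X] := h.comp (C (k : ℤ) * X) with hf
  have hfd : f.natDegree ≤ d := comp_deg h k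
  have hfc : f.coeff d = lc * (k : ℤ) ^ d := by rw [hf, comp_C_mul_X_coeff, hlc]
  have hfe : ∀ l : ℕ, f.eval (l : ℤ) = h.eval ((k * l : ℕ) : ℤ) := by
    intro l
    rw [hf, eval_comp, eval_mul, eval_C, eval_X]
    push_cast; rfl
  have hSf : S = ‖∑ l ∈ Ioc (N / k) b, ee (θ * ((f.eval (l : ℤ) : ℤ) : ℝ))‖ := by
    rw [hSd]; congr 1; apply sum_congr rfl; intro l _; rw [hfe]
  obtain ⟨q, hq1, hq2, a, ha⟩ := hW f hfd (N / k) b (2 * v) θ (by omega) (by linarith) (by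
    rw [← hSf, ← hn]
    linarith)
  rw [← hn, hfc] at ha
  have e1 : θ * ((d.factorial : ℝ) * ((lc * (k : ℤ) ^ d : ℤ) : ℝ)) = θ * (((d.factorial : ℤ) * (lc * (k : ℤ) ^ d) : ℤ) : ℝ) := by
    push_cast; ring
  rw [e1] at ha
  obtain ⟨a', ha'⟩ := absorb q θ _ _ a ha
  have hz : ((d.factorial : ℤ) * (lc * (k : ℤ) ^ d)).natAbs = d.factorial * (lc.natAbs * k ^ d) := by
    rw [Int.natAbs_mul, Int.natAbs_mul, Int.natAbs_pow, Int.natAbs_natCast, Int.natAbs_natCast]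
  rw [hz] at ha'
  refine ⟨q * (d.factorial * (lc.natAbs * k ^ d)), ?_, ?_, a', ha'.trans ?_⟩
  · have : 0 < q * (d.factorial * (lc.natAbs * k ^ d)) := by positivity
    exact this
  · calc ((q * (d.factorial * (lc.natAbs * k ^ d)) : ℕ) : ℝ) = q * (d.factorial * lc.natAbs : ℕ) * (k : ℝ) ^ d := by
          push_cast; ring
      _ ≤ (c₁ * (2 * v) ^ m₁) * (d.factorial * lc.natAbs : ℕ) * v ^ d := by
          gcongr
      _ = _ := by rw [mul_pow, pow_add]; push_cast; ring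
  · have h1 : ((d.factorial * lc.natAbs : ℕ) : ℝ) ≥ 1 := by
      have : 1 ≤ d.factorial * lc.natAbs := Nat.mul_pos hfac hlcn
      exact_mod_cast this
    rw [div_le_div_iff₀ (by positivity) (by positivity)]
    calc c₁ * (2 * v) ^ m₁ * (N : ℝ) ^ d ≤ c₁ * (2 * v) ^ m₁ * (v * n) ^ d := by gcongr
      _ = (c₁ * (2 * v) ^ m₁ * v ^ d) * 1 * (n : ℝ) ^ d := by rw [mul_pow v]; ring
      _ ≤ (c₁ * (2 * v) ^ m₁ * v ^ d) * ((d.factorial * lc.natAbs : ℕ) : ℝ) * (n : ℝ) ^ d := by gcongr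
      _ = _ := by rw [mul_pow, pow_add]; push_cast; ring

end Pool.Agent.R361.MA
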