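import Mathlib
import Pool.Agent.R361.MA.Types

/-!
# Type II sums for polynomial phases
-/

set_option autoImplicit false

namespace Pool.Agent.R361.MA

open Finset Polynomial
open Pool.Agent.H373R2.NB (Ph IW_all Ph_poly)
open Pool.Agent.H807R2.Dav (ee norm_ee ee_add)

lemma conj_ee' (x : ℝ) : (starRingEnd ℂ) (ee x) = ee (-x) := by
  rw [← mk_ee', ← mk_ee', Pool.Agent.Helper602.MK.N_J5b.ee_conj]

/-- Cauchy–Schwarz for bilinear sums -/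
lemma bil_cs (s t : Finset ℕ) (a b : ℕ → ℂ) (W : ℕ → ℕ → ℂ) (A B T : ℝ) (hA : ∑ m ∈ s, ‖a m‖ ^ 2 ≤ A)
    (hB : ∑ l ∈ t, ‖b l‖ ^ 2 ≤ B) (hT0 : 0 ≤ T)
    (hT : ∀ y ∈ t, ∑ y' ∈ t, ‖∑ x ∈ s, W x y * (starRingEnd ℂ) (W x y')‖ ≤ T) :
    ‖∑ m ∈ s, ∑ l ∈ t, a m * b l * W m l‖ ^ 2 ≤ A * (B * T) := by
  have hA0 : 0 ≤ A := le_trans (sum_nonneg fun _ _ => by positivity) hA
  have h1 : ‖∑ m ∈ s, ∑ l ∈ t, a m * b l * W m l‖ ^ 2 ≤ (∑ m ∈ s, ‖a m‖ ^ 2) * ∑ m ∈ s, ‖∑ l ∈ t, b l * W m l‖ ^ 2 := by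
    calc ‖∑ m ∈ s, ∑ l ∈ t, a m * b l * W m l‖ ^ 2 = ‖∑ m ∈ s, a m * ∑ l ∈ t, b l * W m l‖ ^ 2 := by
          congr 2; apply sum_congr rfl; intro m _; rw [mul_sum]; apply sum_congr rfl; intro l _; ring
      _ ≤ (∑ m ∈ s, ‖a m‖ * ‖∑ l ∈ t, b l * W m l‖) ^ 2 := by
          apply pow_le_pow_left₀ (norm_nonneg _)
          refine (norm_sum_le _ _).trans (le_of_eq ?_)
          apply sum_congr rfl; intro m _; rw [norm_mul]
      _ ≤ _ := sum_mul_sq_le_sq_mul_sq _ _ _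
  set V : ℕ → ℕ → ℝ := fun y y' => ‖∑ x ∈ s, W x y * (starRingEnd ℂ) (W x y')‖ with hV
  have hVs : ∀ y y', V y y' = V y' y := by
    intro y y'
    simp only [hV]
    rw [← Complex.norm_conj, map_sum]
    congr 1
    apply sum_congr rfl
    intro x _
    rw [map_mul, Complex.conj_conj, mul_comm]
  have h2 : ∑ m ∈ s, ‖∑ l ∈ t, b l * W m l‖ ^ 2 ≤ B * T := by
    have h3 : (((∑ m ∈ s, ‖∑ l ∈ t, b l * W m l‖ ^ 2 : ℝ)) : ℂ) =
        ∑ y ∈ t, ∑ y' ∈ t, b y * (starRingEnd ℂ) (b y') * ∑ x ∈ s, W x y * (starRingEnd ℂ) (W x y') := by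
      have h4 : ∀ m, ((‖∑ l ∈ t, b l * W m l‖ ^ 2 : ℝ) : ℂ) =
          ∑ y ∈ t, ∑ y' ∈ t, b y * (starRingEnd ℂ) (b y') * (W m y * (starRingEnd ℂ) (W m y')) := by
        intro m
        rw [← Complex.normSq_eq_norm_sq, ← Complex.mul_conj, map_sum, sum_mul_sum]
        apply sum_congr rfl; intro y _
        apply sum_congr rfl; intro y' _
        rw [map_mul]; ring
      rw [Complex.ofReal_sum, sum_congr rfl (fun m _ => h4 m), sum_comm]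
      apply sum_congr rfl; intro y _
      rw [sum_comm]
      apply sum_congr rfl; intro y' _
      rw [mul_sum]
    have h5 : ∑ m ∈ s, ‖∑ l ∈ t, b l * W m l‖ ^ 2 = ‖(((∑ m ∈ s, ‖∑ l ∈ t, b l * W m l‖ ^ 2 : ℝ)) : ℂ)‖ := by
      rw [Complex.norm_real, Real.norm_eq_abs, abs_of_nonneg (sum_nonneg fun _ _ => by positivity)]
    rw [h5, h3]
    calc ‖∑ y ∈ t, ∑ y' ∈ t, b y * (starRingEnd ℂ) (b y') * ∑ x ∈ s, W x y * (starRingEnd ℂ) (W x y')‖ ≤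
          ∑ y ∈ t, ∑ y' ∈ t, (‖b y‖ ^ 2 / 2 * V y y' + ‖b y'‖ ^ 2 / 2 * V y y') := by
          refine (norm_sum_le _ _).trans (sum_le_sum fun y _ => ?_)
          refine (norm_sum_le _ _).trans (sum_le_sum fun y' _ => ?_)
          rw [norm_mul, norm_mul, Complex.norm_conj]
          have h6 : 0 ≤ V y y' := norm_nonneg _
          have h7 : ‖b y‖ * ‖b y'‖ ≤ ‖b y‖ ^ 2 / 2 + ‖b y'‖ ^ 2 / 2 := by nlinarith [sq_nonneg (‖b y‖ - ‖b y'‖)]
          rw [← add_mul]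
          exact mul_le_mul_of_nonneg_right h7 h6
      _ = ∑ y ∈ t, ‖b y‖ ^ 2 * ∑ y' ∈ t, V y y' := by
          simp_rw [sum_add_distrib]
          rw [sum_comm (f := fun y y' => ‖b y'‖ ^ 2 / 2 * V y y'), ← sum_add_distrib]
          apply sum_congr rfl; intro y _
          rw [← sum_add_distrib, mul_sum]
          apply sum_congr rfl; intro y' _
          rw [hVs y' y]; ring
      _ ≤ ∑ y ∈ t, ‖b y‖ ^ 2 * T := sum_le_sum fun y hy => mul_le_mul_of_nonneg_left (hT y hy) (by positivity)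
      _ = (∑ y ∈ t, ‖b y‖ ^ 2) * T := by rw [sum_mul]
      _ ≤ _ := mul_le_mul_of_nonneg_right hB hT0
  calc _ ≤ _ := h1
    _ ≤ A * (B * T) := mul_le_mul hA h2 (sum_nonneg fun _ _ => by positivity) hA0

/-- the weight -/
noncomputable def WW (h : ℤ[X]) (θ : ℝ) (N N' x y : ℕ) : ℂ :=
  if N < x * y ∧ x * y ≤ N' then ee (θ * ((h.eval ((x * y : ℕ) : ℤ) : ℤ) : ℝ)) else 0

/-- the differenced polynomial -/
noncomputable def dp (h : ℤ[X]) (y₀ y : ℕ) : ℤ[X] := h.comp (C (y₀ : ℤ) * X) - h.comp (C (y : ℤ) * X)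

lemma corr_eq (h : ℤ[X]) (θ : ℝ) (N N' M y₀ y : ℕ) (hy₀ : 0 < y₀) (hy : 0 < y) :
    ∑ x ∈ Ioc M (2 * M), WW h θ N N' x y₀ * (starRingEnd ℂ) (WW h θ N N' x y) =
      ∑ x ∈ Ioc (max M (max (N / y₀) (N / y))) (min (2 * M) (min (N' / y₀) (N' / y))),
        ee (θ * (((dp h y₀ y).eval (x : ℤ) : ℤ) : ℝ)) := by
  have h1 : Ioc (max M (max (N / y₀) (N / y))) (min (2 * M) (min (N' / y₀) (N' / y))) =
      (Ioc M (2 * M)).filter (fun x => (N < x * y₀ ∧ x * y₀ ≤ N') ∧ (N < x * y ∧ x * y ≤ N')) := by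
    ext x
    rw [mem_filter, mem_Ioc, mem_Ioc, max_lt_iff, max_lt_iff, le_min_iff, le_min_iff, Nat.div_lt_iff_lt_mul hy₀,
      Nat.div_lt_iff_lt_mul hy, Nat.le_div_iff_mul_le hy₀, Nat.le_div_iff_mul_le hy]
    tauto
  rw [h1, sum_filter]
  apply sum_congr rfl
  intro x _
  unfold WW
  by_cases c1 : N < x * y₀ ∧ x * y₀ ≤ N'
  · by_cases c2 : N < x * y ∧ x * y ≤ N'
    · rw [if_pos c1, if_pos c2, if_pos ⟨c1, c2⟩, conj_ee', ← ee_add]
      congr 1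
      have e : (dp h y₀ y).eval (x : ℤ) = h.eval ((x * y₀ : ℕ) : ℤ) - h.eval ((x * y : ℕ) : ℤ) := by
        unfold dp
        rw [eval_sub, eval_comp, eval_comp, eval_mul, eval_mul, eval_C, eval_C, eval_X]
        push_cast
        rw [mul_comm (y₀ : ℤ), mul_comm (y : ℤ)]
      rw [e]
      push_cast
      ring
    · rw [if_pos c1, if_neg c2, map_zero, mul_zero, if_neg (fun hh => c2 hh.2)]
  · rw [if_neg c1, zero_mul, if_neg (fun hh => c1 hh.1)]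

lemma dp_deg (h : ℤ[X]) (y₀ y : ℕ) : (dp h y₀ y).natDegree ≤ h.natDegree := by
  unfold dp
  refine (natDegree_sub_le _ _).trans ?_
  exact max_le (comp_deg h y₀) (comp_deg h y)

lemma dp_coeff (h : ℤ[X]) (y₀ y : ℕ) (d : ℕ) : (dp h y₀ y).coeff d = h.coeff d * ((y₀ : ℤ) ^ d - (y : ℤ) ^ d) := by
  unfold dp
  rw [coeff_sub, comp_C_mul_X_coeff, comp_C_mul_X_coeff]
  ring

/-- type II sums -/
theorem typeII (h : ℤ[X]) (hd : 1 ≤ h.natDegree) : ∃ c m : ℕ, 1 ≤ c ∧ ∀ (θ v : ℝ) (N N' M K y₀ : ℕ), 1 ≤ v → 1 ≤ N →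
    c * v ^ m ≤ M → c * v ^ m ≤ K → y₀ ∈ Ioc K (2 * K) →
    (M : ℝ) * K < v * ∑ y ∈ Ioc K (2 * K), ‖∑ x ∈ Ioc M (2 * M), WW h θ N N' x y₀ * (starRingEnd ℂ) (WW h θ N N' x y)‖ →
    ∃ q : ℕ, 1 ≤ q ∧ (q : ℝ) ≤ c * v ^ m ∧ ∃ a : ℤ, |q * θ - a| ≤ c * v ^ m / (N : ℝ) ^ h.natDegree := by
  classical
  set d := h.natDegree with hdd
  obtain ⟨c₁, m₁, hc₁, hW⟩ := weyl_poly d hd
  obtain ⟨c₂, m₂, hc₂, hC⟩ := conc_all d
  set lc := h.coeff d with hlc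
  have hlc0 : lc ≠ 0 := by
    rw [hlc, hdd]
    have : h ≠ 0 := by
      intro h0; rw [h0, natDegree_zero] at hdd; omega
    exact leadingCoeff_ne_zero.2 this
  have hlcn : 1 ≤ lc.natAbs := Int.natAbs_pos.2 hlc0
  have hfac : 1 ≤ d.factorial := Nat.factorial_pos d
  set F : ℕ := d.factorial * (d.factorial * lc.natAbs) with hF
  have hF1 : 1 ≤ F := Nat.mul_pos hfac (Nat.mul_pos hfac hlcn)
  refine ⟨c₂ * (2 * (c₁ * 2 ^ m₁)) ^ m₂ * (c₁ * 2 ^ m₁) * 2 ^ d * 4 ^ d * F, (1 + m₁) * m₂ + m₁ + d, ?_, ?_⟩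
  · have : 0 < c₂ * (2 * (c₁ * 2 ^ m₁)) ^ m₂ * (c₁ * 2 ^ m₁) * 2 ^ d * 4 ^ d * F := by positivity
    exact this
  intro θ v N N' M K y₀ hv hN hM hK hy₀ hS
  have hv0 : 0 < v := by linarith
  have hN0 : (0 : ℝ) < N := by exact_mod_cast hN
  have hc₁r : (1 : ℝ) ≤ c₁ := by exact_mod_cast hc₁
  have hc₂r : (1 : ℝ) ≤ c₂ := by exact_mod_cast hc₂
  have hF1r : (1 : ℝ) ≤ F := by exact_mod_cast hF1
  have h2v : 1 ≤ 2 * v := by linarith
  set Q₁ : ℝ := c₁ * (2 * v) ^ m₁ with hQ₁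
  have hQ₁1 : 1 ≤ Q₁ := one_le_mul_of_one_le_of_one_le hc₁r (one_le_pow₀ h2v)
  set u₂ : ℝ := 2 * v * Q₁ with hu₂
  have hu₂1 : 1 ≤ u₂ := one_le_mul_of_one_le_of_one_le h2v hQ₁1
  set Q₂ : ℝ := c₂ * u₂ ^ m₂ with hQ₂
  have hQ₂1 : 1 ≤ Q₂ := one_le_mul_of_one_le_of_one_le hc₂r (one_le_pow₀ hu₂1)
  have h2vd : 1 ≤ (2 * v) ^ d := one_le_pow₀ h2v
  have h4d : (1 : ℝ) ≤ 4 ^ d := one_le_pow₀ (by norm_num)
  have hform : ((c₂ * (2 * (c₁ * 2 ^ m₁)) ^ m₂ * (c₁ * 2 ^ m₁) * 2 ^ d * 4 ^ d * F : ℕ) : ℝ) * v ^ ((1 + m₁) * m₂ + m₁ + d) =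
      Q₂ * Q₁ * (2 * v) ^ d * 4 ^ d * F := by
    rw [hQ₂, hu₂, hQ₁, mul_pow (2 : ℝ) v m₁, mul_pow (2 : ℝ) v d]
    have e1 : (2 * v * (c₁ * (2 ^ m₁ * v ^ m₁))) ^ m₂ = (2 * (c₁ * 2 ^ m₁)) ^ m₂ * v ^ ((1 + m₁) * m₂) := by
      rw [pow_mul, ← mul_pow]; rw [pow_add]; ring
    rw [e1, pow_add, pow_add]
    push_cast
    ring
  rw [hform] at hM hK ⊢
  set Z : ℝ := Q₂ * Q₁ * (2 * v) ^ d * 4 ^ d * F with hZ
  have hQQ : 1 ≤ Q₂ * Q₁ := one_le_mul_of_one_le_of_one_le hQ₂1 hQ₁1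
  have hQQv : 1 ≤ Q₂ * Q₁ * (2 * v) ^ d := one_le_mul_of_one_le_of_one_le hQQ h2vd
  have hZ1 : Q₂ * Q₁ * (2 * v) ^ d ≤ Z := by
    calc Q₂ * Q₁ * (2 * v) ^ d = Q₂ * Q₁ * (2 * v) ^ d * 1 * 1 := by ring
      _ ≤ _ := by rw [hZ]; gcongr
  have hZ2 : Q₂ ≤ Z := by
    refine le_trans ?_ hZ1
    calc Q₂ = Q₂ * 1 * 1 := by ring
      _ ≤ _ := by gcongr
  have hM1 : (1 : ℝ) ≤ M := hQQv.trans (hZ1.trans hM)
  have hK1 : (1 : ℝ) ≤ K := hQQv.trans (hZ1.trans hK)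
  have hM0 : (0 : ℝ) < M := by linarith
  have hK0 : (0 : ℝ) < K := by linarith
  rw [mem_Ioc] at hy₀
  have hy₀0 : 0 < y₀ := by omega
  -- correlations
  set T : ℕ → ℝ := fun y => ‖∑ x ∈ Ioc M (2 * M), WW h θ N N' x y₀ * (starRingEnd ℂ) (WW h θ N N' x y)‖ with hT
  have hT2 : ∀ y, 0 < y → T y = ‖∑ x ∈ Ioc (max M (max (N / y₀) (N / y))) (min (2 * M) (min (N' / y₀) (N' / y))),
        ee (θ * (((dp h y₀ y).eval (x : ℤ) : ℤ) : ℝ))‖ := by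
    intro y hy
    simp only [hT]
    rw [corr_eq h θ N N' M y₀ y hy₀0 hy]
  have hTn : ∀ y, 0 < y → T y ≤ ((min (2 * M) (min (N' / y₀) (N' / y)) - max M (max (N / y₀) (N / y)) : ℕ) : ℝ) := by
    intro y hy
    rw [hT2 y hy]
    have := norm_sum_ee_le (Ioc (max M (max (N / y₀) (N / y))) (min (2 * M) (min (N' / y₀) (N' / y))))
      (fun x : ℕ => θ * (((dp h y₀ y).eval (x : ℤ) : ℤ) : ℝ))
    rw [Nat.card_Ioc] at this
    exact this
  have hnM : ∀ y, ((min (2 * M) (min (N' / y₀) (N' / y)) - max M (max (N / y₀) (N / y)) : ℕ) : ℝ) ≤ M := by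
    intro y
    have : min (2 * M) (min (N' / y₀) (N' / y)) - max M (max (N / y₀) (N / y)) ≤ M := by omega
    exact_mod_cast this
  set G := (Ioc K (2 * K)).filter (fun y => (M : ℝ) ≤ 2 * v * T y) with hG
  have hGc : (K : ℝ) ≤ 2 * v * #G := by
    have h1 : ∑ y ∈ Ioc K (2 * K), T y ≤ #G * M + K * (M / (2 * v)) := by
      calc ∑ y ∈ Ioc K (2 * K), T y ≤ ∑ y ∈ Ioc K (2 * K), ((if (M : ℝ) ≤ 2 * v * T y then (M : ℝ) else 0) + M / (2 * v)) := by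
            apply sum_le_sum
            intro y hy
            rw [mem_Ioc] at hy
            have h3 : T y ≤ M := (hTn y (by omega)).trans (hnM y)
            have h4 : (0 : ℝ) ≤ M / (2 * v) := by positivity
            split_ifs with h5
            · linarith
            · push Not at h5
              rw [zero_add, le_div_iff₀ (by positivity)]
              linarith
        _ = _ := by
            rw [sum_add_distrib, sum_const, Nat.card_Ioc, nsmul_eq_mul, ← sum_filter, sum_const, nsmul_eq_mul,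
              show 2 * K - K = K by omega]
    have h2 : (M : ℝ) * K < v * (#G * M + K * (M / (2 * v))) := hS.trans_le (mul_le_mul_of_nonneg_left h1 hv0.le)
    have h3 : v * (#G * M + K * (M / (2 * v))) = (v * #G + K / 2) * M := by field_simp
    rw [h3, mul_comm] at h2
    have h4 := lt_of_mul_lt_mul_right h2 hM0.le
    linarith
  have hch : ∀ y : ℕ, ∃ q : ℕ, y ∈ G → 1 ≤ q ∧ (q : ℝ) ≤ Q₁ ∧
      ∃ a : ℤ, |q * (θ * ((d.factorial : ℝ) * ((lc * ((y₀ : ℤ) ^ d - (y : ℤ) ^ d) : ℤ) : ℝ))) - a| ≤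
        Q₁ * (2 * v) ^ d / (M : ℝ) ^ d := by
    intro y
    by_cases hy : y ∈ G
    · rw [hG, mem_filter, mem_Ioc] at hy
      have hy0 : 0 < y := by omega
      set A := max M (max (N / y₀) (N / y)) with hA
      set B := min (2 * M) (min (N' / y₀) (N' / y)) with hB
      have h1 : (M : ℝ) ≤ 2 * v * ((B - A : ℕ) : ℝ) :=
        hy.2.trans (mul_le_mul_of_nonneg_left (hTn y hy0) (by positivity))
      have h2 : 0 < B - A := by
        rcases Nat.eq_zero_or_pos (B - A) with h0 | h0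
        · rw [h0, Nat.cast_zero, mul_zero] at h1; linarith
        · exact h0
      have h2r : (0 : ℝ) < ((B - A : ℕ) : ℝ) := by exact_mod_cast h2
      obtain ⟨q, hq1, hq2, a, ha⟩ := hW (dp h y₀ y) (dp_deg h y₀ y) A B (2 * v) θ (by omega) h2v (by
        rw [← hT2 y hy0]
        exact (hnM y).trans hy.2)
      refine ⟨q, fun _ => ⟨hq1, hq2, a, ?_⟩⟩
      rw [dp_coeff] at ha
      refine ha.trans ?_
      rw [← hQ₁, div_le_div_iff₀ (by positivity) (by positivity), mul_assoc Q₁, ← mul_pow]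
      apply mul_le_mul_of_nonneg_left _ (by positivity)
      exact pow_le_pow_left₀ hM0.le h1 _
    · exact ⟨0, fun h' => absurd h' hy⟩
  choose qq hqq using hch
  obtain ⟨q, hq1, hq2, hqc⟩ := pigeon G qq Q₁ hQ₁1 (fun y hy => ⟨(hqq y hy).1, (hqq y hy).2.1⟩)
  set G' := G.filter (fun y => qq y = q) with hG'
  have hKG' : (K : ℝ) ≤ u₂ * #G' := by
    calc (K : ℝ) ≤ 2 * v * #G := hGc
      _ ≤ 2 * v * (Q₁ * #G') := mul_le_mul_of_nonneg_left hqc (by positivity)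
      _ = _ := by rw [hu₂]; ring
  have hG'1 : ∀ y ∈ G', K < y ∧ y ≤ 2 * K ∧ (M : ℝ) ≤ 2 * v * T y ∧ 
      ∃ a : ℤ, |q * (θ * ((d.factorial : ℝ) * ((lc * ((y₀ : ℤ) ^ d - (y : ℤ) ^ d) : ℤ) : ℝ))) - a| ≤
        Q₁ * (2 * v) ^ d / (M : ℝ) ^ d := by
    intro y hy
    rw [hG', mem_filter] at hy
    obtain ⟨_, _, a, ha⟩ := hqq y hy.1
    have h1 := hy.1
    rw [hG, mem_filter, mem_Ioc] at h1
    rw [hy.2] at ha
    exact ⟨h1.1.1, h1.1.2, h1.2, a, ha⟩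
  -- `N` is at most `4 M K`
  have hNMK : (N : ℝ) ≤ 4 * (M * K) := by
    have hne : G'.Nonempty := by
      rw [nonempty_iff_ne_empty]
      intro h0
      rw [h0, card_empty, Nat.cast_zero, mul_zero] at hKG'
      linarith
    obtain ⟨y, hy⟩ := hne
    obtain ⟨h1, h2, h3, _⟩ := hG'1 y hy
    have h4 : 0 < T y := by
      by_contra h5
      push Not at h5
      have : 2 * v * T y ≤ 0 := mul_nonpos_of_nonneg_of_nonpos (by positivity) h5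
      linarith
    have h5 : ∑ x ∈ Ioc M (2 * M), WW h θ N N' x y₀ * (starRingEnd ℂ) (WW h θ N N' x y) ≠ 0 := norm_pos_iff.1 h4
    obtain ⟨x, hx, hx2⟩ := exists_ne_zero_of_sum_ne_zero h5
    have h6 := left_ne_zero_of_mul hx2
    unfold WW at h6
    split_ifs at h6 with h7
    · rw [mem_Ioc] at hx
      have h8 : x * y₀ ≤ (2 * M) * (2 * K) := Nat.mul_le_mul hx.2 hy₀.2
      have h9 : N ≤ 4 * (M * K) := by
        calc N ≤ x * y₀ := h7.1.le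
          _ ≤ _ := h8
          _ = _ := by ring
      exact_mod_cast h9
    · exact absurd rfl h6
  -- concentration
  set S := (range K).filter (fun n => n + (K + 1) ∈ G') with hSd
  have hScard : #G' ≤ #S := by
    apply card_le_card_of_injOn (fun y => y - (K + 1))
    · intro y hy
      rw [mem_coe] at hy
      obtain ⟨h1, h2, _⟩ := hG'1 y hy
      rw [mem_coe, hSd, mem_filter, mem_range]
      have e : y - (K + 1) + (K + 1) = y := by omega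
      simp only
      rw [e]
      exact ⟨by omega, hy⟩
    · intro y hy y' hy' hyy
      rw [mem_coe] at hy hy'
      obtain ⟨h1, _⟩ := hG'1 y hy
      obtain ⟨h2, _⟩ := hG'1 y' hy'
      simp only at hyy
      omega
  set g : ℤ[X] := C ((d.factorial : ℤ) * lc) * (C ((y₀ : ℤ) ^ d) - X ^ d) with hg
  have hgd : g.natDegree ≤ d := by
    rw [hg]
    refine (natDegree_C_mul_le _ _).trans ?_
    refine (natDegree_sub_le _ _).trans ?_
    rw [natDegree_C, natDegree_X_pow]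
    omega
  have hgc : g.coeff d = -((d.factorial : ℤ) * lc) := by
    rw [hg, coeff_C_mul, coeff_sub, coeff_C, if_neg (by omega), coeff_X_pow_self]
    ring
  have hge : ∀ n : ℕ, g.eval (n : ℤ) = (d.factorial : ℤ) * (lc * ((y₀ : ℤ) ^ d - (n : ℤ) ^ d)) := by
    intro n
    rw [hg, eval_mul, eval_C, eval_sub, eval_C, eval_pow, eval_X]
    ring
  set δ : ℝ := Q₁ * (2 * v) ^ d / (M : ℝ) ^ d with hδ
  have hδ0 : 0 ≤ δ := by positivity
  have hph := Ph_add d (K + 1) _ _ (Ph_poly d g hgd (q * θ))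
  obtain ⟨q₂, hq₂1, hq₂2, a, ha⟩ := hC K u₂ δ _ _ S hu₂1 hδ0
    (by
      rw [← hQ₂, hδ, mul_div_assoc', div_le_one (by positivity)]
      calc Q₂ * (Q₁ * (2 * v) ^ d) = Q₂ * Q₁ * (2 * v) ^ d := by ring
        _ ≤ Z := hZ1
        _ ≤ M := hM
        _ ≤ _ := le_self_pow₀ hM1 (by omega))
    (by
      rw [← hQ₂]
      exact hZ2.trans hK)
    hph (filter_subset _ _)
    (by
      refine hKG'.trans ?_
      apply mul_le_mul_of_nonneg_left _ (by positivity)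
      exact_mod_cast hScard)
    (by
      intro n hn
      rw [hSd, mem_filter] at hn
      obtain ⟨_, _, _, a, ha⟩ := hG'1 _ hn.2
      refine ⟨a, ?_⟩
      have e : q * θ * ((g.eval ((n + (K + 1) : ℕ) : ℤ) : ℤ) : ℝ) =
          q * (θ * ((d.factorial : ℝ) * ((lc * ((y₀ : ℤ) ^ d - ((n + (K + 1) : ℕ) : ℤ) ^ d) : ℤ) : ℝ))) := by
        rw [hge]; push_cast; ring
      show |q * θ * ((g.eval ((n + (K + 1) : ℕ) : ℤ) : ℤ) : ℝ) - a| ≤ δ
      rw [e]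
      exact ha)
  rw [hgc, ← hQ₂] at ha
  have e1 : (q₂ : ℝ) * (q * θ * ((d.factorial : ℝ) * ((-((d.factorial : ℤ) * lc) : ℤ) : ℝ))) =
      ((q₂ * q : ℕ) : ℝ) * (θ * (((d.factorial : ℤ) * -((d.factorial : ℤ) * lc) : ℤ) : ℝ)) := by push_cast; ring
  rw [e1] at ha
  obtain ⟨a', ha'⟩ := absorb (q₂ * q) θ _ _ a ha
  have hz : ((d.factorial : ℤ) * -((d.factorial : ℤ) * lc)).natAbs = F := by
    rw [Int.natAbs_mul, Int.natAbs_neg, Int.natAbs_mul, Int.natAbs_natCast, hF]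
  rw [hz] at ha'
  refine ⟨q₂ * q * F, ?_, ?_, a', ha'.trans ?_⟩
  · have : 0 < q₂ * q * F := by positivity
    exact this
  · calc ((q₂ * q * F : ℕ) : ℝ) = q₂ * q * 1 * 1 * F := by push_cast; ring
      _ ≤ Z := by rw [hZ]; gcongr
  · have e2 : Q₂ * δ / (K : ℝ) ^ d = Q₂ * Q₁ * (2 * v) ^ d / ((M : ℝ) * K) ^ d := by
      rw [hδ, mul_pow (M : ℝ)]; field_simp
    rw [e2, div_le_div_iff₀ (by positivity) (by positivity)]
    calc Q₂ * Q₁ * (2 * v) ^ d * (N : ℝ) ^ d ≤ Q₂ * Q₁ * (2 * v) ^ d * (4 * (M * K)) ^ d := by gcongr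
      _ = Q₂ * Q₁ * (2 * v) ^ d * 4 ^ d * 1 * (M * K) ^ d := by rw [mul_pow (4 : ℝ)]; ring
      _ ≤ _ := by rw [hZ]; gcongr

end Pool.Agent.R361.MA
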